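import Pool.Agent.Q283.PQ.Stm

/-!
# Project PQ (helper283), job FSA: from a 2-adic relation to a point
(template: `Pool.Agent.Q251.CE.FS1`)
-/

set_option autoImplicit false

namespace Pool.Agent.Q211.PQ

open Polynomial

/-- coordinates with respect to independent elements -/
theorem coord {M : Type} [AddCommGroup M] [Module.Finite ℤ M] (r : ℕ) (P : Fin r → M)
    (hP : LinearIndependent ℤ P) :
    ∃ (N : Fin r → ℤ) (f : Fin r → M →ₗ[ℤ] ℤ), (∀ j, N j ≠ 0) ∧ ∀ (m : Fin r → ℤ) (j : Fin r),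
      f j (∑ i, m i • P i) = N j * m j := by
  classical
  set φ : M →ₗ[ℤ] TensorProduct ℤ ℚ M := TensorProduct.mk ℤ ℚ M 1 with hφ
  have hloc : IsLocalizedModule (nonZeroDivisors ℤ) φ :=
    (isLocalizedModule_iff_isBaseChange (nonZeroDivisors ℤ) ℚ φ).mpr
      (TensorProduct.isBaseChange ℤ M ℚ)
  have hl : LinearIndependent ℚ (φ ∘ P) := hP.of_isLocalizedModule ℚ (nonZeroDivisors ℤ) φ
  obtain ⟨g, hg⟩ := LinearMap.exists_leftInverse_of_injective
    (Fintype.linearCombination ℚ (φ ∘ P)) (LinearMap.ker_eq_bot.2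
      (linearIndependent_iff_injective_fintypeLinearCombination.1 hl))
  have hgm : ∀ (m : Fin r → ℤ) (j : Fin r), g (φ (∑ i, m i • P i)) j = m j := by
    intro m j
    have h1 : φ (∑ i, m i • P i) = Fintype.linearCombination ℚ (φ ∘ P) (fun i => (m i : ℚ)) := by
      rw [map_sum, Fintype.linearCombination_apply]
      refine Finset.sum_congr rfl fun i _ => ?_
      rw [map_smul, Function.comp_apply]
      exact (Int.cast_smul_eq_zsmul ℚ (m i) (φ (P i))).symm
    rw [h1]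
    have h2 := LinearMap.congr_fun hg (fun i => (m i : ℚ))
    rw [LinearMap.comp_apply] at h2
    rw [h2]
    rfl
  have : Module.FinitePresentation ℤ M := Module.finitePresentation_of_finite ℤ M
  have hj : ∀ j : Fin r, ∃ (h : M →ₗ[ℤ] ℤ) (s : nonZeroDivisors ℤ),
      (Algebra.linearMap ℤ ℚ) ∘ₗ h =
        s • (((LinearMap.proj j).comp g).restrictScalars ℤ ∘ₗ φ) := by
    intro j
    exact Module.FinitePresentation.exists_lift_of_isLocalizedModule (nonZeroDivisors ℤ)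
      (Algebra.linearMap ℤ ℚ) _
  choose h s hs using hj
  refine ⟨fun j => (s j : ℤ), h, fun j => nonZeroDivisors.ne_zero (s j).2, fun m j => ?_⟩
  have h1 := LinearMap.congr_fun (hs j) (∑ i, m i • P i)
  rw [LinearMap.comp_apply, LinearMap.smul_apply, LinearMap.comp_apply,
    LinearMap.restrictScalars_apply, LinearMap.comp_apply, LinearMap.proj_apply, hgm] at h1
  have h2 : ((h j (∑ i, m i • P i) : ℤ) : ℚ) = ((s j : ℤ) : ℚ) * (m j : ℚ) := by
    rw [← zsmul_eq_mul]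
    exact h1
  exact_mod_cast h2

theorem eq_zero_of_dvd (z : ℤ_[2]) (h : ∀ K : ℕ, (2 : ℤ_[2]) ^ K ∣ z) : z = 0 := by
  by_contra h0
  obtain ⟨K, hK⟩ := PadicInt.exists_pow_neg_lt 2 (norm_pos_iff.2 h0)
  have h1 := (PadicInt.norm_le_pow_iff_mem_span_pow z K).2
    (Ideal.mem_span_singleton.2 (by exact_mod_cast h K))
  exact absurd h1 (not_le.2 hK)

/-- JOB FSA -/
theorem fsa : Pool.Agent.Q283.PQ.S_FSA := by
  intro M _ hM ι N _ loc r P hP a ha H
  classical
  have hlin : LinearIndependent ℤ P := by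
    rw [Fintype.linearIndependent_iff]
    intro c hc i
    have h1 := hP c (by rw [hc]; exact IsOfFinAddOrder.zero)
    exact congrFun h1 i
  obtain ⟨Nn, f, hN0, hf⟩ := coord r P hlin
  have hft : ∀ j τ, IsOfFinAddOrder τ → f j τ = 0 := by
    intro j τ hτ
    obtain ⟨n, hn, h⟩ := isOfFinAddOrder_iff_nsmul_eq_zero.1 hτ
    have h1 := congrArg (f j) h
    rw [map_nsmul, map_zero, nsmul_eq_mul, mul_eq_zero] at h1
    rcases h1 with h1 | h1
    · exact absurd (by exact_mod_cast h1) hn.ne'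
    · exact h1
  obtain ⟨j₀, hj₀⟩ := Function.ne_iff.1 ha
  have happ : ∀ n i, (2 : ℤ_[2]) ^ n ∣ a i - ((a i).appr n : ℤ_[2]) := by
    intro n i
    have h1 := Ideal.mem_span_singleton.1 (PadicInt.appr_spec n (a i))
    exact_mod_cast h1
  set Q : ℕ → M := fun n => ∑ i, ((a i).appr n : ℤ) • P i with hQ
  -- local divisibility
  have hA : ∀ v n, ∃ R : N v, loc v (Q n) = (2 ^ n : ℕ) • R := by
    intro v n
    obtain ⟨m, hm, R, hR⟩ := H v n
    have h1 : ∀ i, ∃ c : ℤ, ((a i).appr n : ℤ) = m i + 2 ^ n * c := by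
      intro i
      have h2 : (2 : ℤ_[2]) ^ n ∣ ((((a i).appr n : ℤ) - m i : ℤ) : ℤ_[2]) := by
        have h3 := dvd_add (happ n i) (hm i)
        have e : a i - ((a i).appr n : ℤ_[2]) + ((m i : ℤ_[2]) - a i) =
            -((((a i).appr n : ℤ) - m i : ℤ) : ℤ_[2]) := by push_cast; ring
        rw [e, dvd_neg] at h3
        exact h3
      have h4 : ((2 : ℕ) : ℤ_[2]) ^ n ∣ ((((a i).appr n : ℤ) - m i : ℤ) : ℤ_[2]) := by
        exact_mod_cast h2
      rw [PadicInt.pow_p_dvd_int_iff] at h4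
      obtain ⟨c, hc⟩ := h4
      refine ⟨c, ?_⟩
      push_cast at hc
      linarith
    choose c hc using h1
    refine ⟨R + ∑ i, c i • loc v (P i), ?_⟩
    have e0 : Q n = ∑ i, m i • P i + ∑ i, (2 ^ n * c i) • P i := by
      rw [hQ, ← Finset.sum_add_distrib]
      refine Finset.sum_congr rfl fun i _ => ?_
      rw [hc, add_smul]
    have e1 : ∀ g : Fin r → ℤ, loc v (∑ i, g i • P i) = ∑ i, g i • loc v (P i) := by
      intro g
      rw [map_sum]
      exact Finset.sum_congr rfl fun i _ => map_zsmul _ _ _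
    rw [e0, map_add, e1, e1, hR, smul_add, Finset.smul_sum]
    congr 1
    refine Finset.sum_congr rfl fun i _ => ?_
    rw [mul_smul]
    have : (2 : ℤ) ^ n = ((2 ^ n : ℕ) : ℤ) := by push_cast; rfl
    rw [this, natCast_zsmul]
  -- bounded divisibility
  have hB : ∃ K, ∀ n, K ≤ n → ∀ y τ, IsOfFinAddOrder τ → Q n ≠ (2 ^ K : ℕ) • y + τ := by
    by_contra hcon
    push Not at hcon
    have h1 : (Nn j₀ : ℤ_[2]) * a j₀ = 0 := by
      refine eq_zero_of_dvd _ fun K => ?_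
      obtain ⟨n, hn, y, τ, hτ, h⟩ := hcon K
      have h2 := congrArg (f j₀) h
      rw [map_add, hft _ _ hτ, add_zero, map_nsmul, hQ] at h2
      simp only [] at h2
      rw [hf] at h2
      have h3 : (Nn j₀ : ℤ_[2]) * ((a j₀).appr n : ℤ_[2]) = (2 : ℤ_[2]) ^ K * (f j₀ y : ℤ_[2]) := by
        rw [nsmul_eq_mul] at h2
        exact_mod_cast congrArg (fun t : ℤ => (t : ℤ_[2])) h2
      have h4 : (2 : ℤ_[2]) ^ K ∣ a j₀ - ((a j₀).appr n : ℤ_[2]) :=
        (pow_dvd_pow _ hn).trans (happ n j₀)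
      have e : (Nn j₀ : ℤ_[2]) * a j₀ = (Nn j₀ : ℤ_[2]) * (a j₀ - ((a j₀).appr n : ℤ_[2])) +
          (2 : ℤ_[2]) ^ K * (f j₀ y : ℤ_[2]) := by
        rw [← h3]; ring
      rw [e]
      exact dvd_add (h4.mul_left _) (Dvd.intro _ rfl)
    rcases mul_eq_zero.1 h1 with h2 | h2
    · exact hN0 j₀ (by exact_mod_cast h2)
    · exact hj₀ h2
  obtain ⟨K, hK⟩ := hB
  set n := K + 1 with hn
  set S : ℕ → Prop := fun k => ∃ x τ, IsOfFinAddOrder τ ∧ Q n = (2 ^ k : ℕ) • x + τ with hS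
  have hSb : ∀ k, S k → k < K := by
    rintro k ⟨x, τ, hτ, h⟩
    by_contra hlt
    push Not at hlt
    obtain ⟨j, rfl⟩ := Nat.exists_eq_add_of_le hlt
    refine hK n (by omega) ((2 ^ j : ℕ) • x) τ hτ ?_
    rw [h, smul_smul, ← pow_add]
  have hS0 : S 0 := ⟨Q n, 0, IsOfFinAddOrder.zero, by simp⟩
  set k := Nat.findGreatest S K with hk
  have hSk : S k := Nat.findGreatest_spec (m := 0) (Nat.zero_le _) hS0
  have hSk1 : ¬ S (k + 1) := by
    intro h
    have h1 := Nat.le_findGreatest (hSb _ h).le h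
    omega
  obtain ⟨x, τ, hτ, hx⟩ := hSk
  have hk2 : k < K := hSb k ⟨x, τ, hτ, hx⟩
  refine ⟨x, ?_, ?_⟩
  · intro y τ' hτ' hxy
    apply hSk1
    refine ⟨y, (2 ^ k : ℕ) • τ' + τ, (hτ'.nsmul).add hτ, ?_⟩
    rw [hx, hxy, smul_add, smul_smul, ← pow_succ, ← add_assoc]
  · intro v
    obtain ⟨R, hR⟩ := hA v n
    obtain ⟨s, hs⟩ : ∃ s, n = k + (s + 1) := ⟨n - k - 1, by omega⟩
    have h4 : (2 ^ k : ℕ) • loc v x + loc v τ = (2 ^ n : ℕ) • R := by
      rw [← hR, hx, map_add, map_nsmul]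
    have hτ1 : IsOfFinAddOrder (loc v τ) := (loc v).isOfFinAddOrder hτ
    have h5 : (2 ^ k : ℕ) • (loc v x - (2 ^ (s + 1) : ℕ) • R) = -loc v τ := by
      rw [smul_sub, smul_smul, ← pow_add, ← hs, ← h4]
      abel
    have h6 : IsOfFinAddOrder (loc v x - (2 ^ (s + 1) : ℕ) • R) := by
      have h7 : IsOfFinAddOrder ((2 ^ k : ℕ) • (loc v x - (2 ^ (s + 1) : ℕ) • R)) := by
        rw [h5]
        exact hτ1.neg
      rcases isOfFinAddOrder_nsmul.1 h7 with h8 | h8
      · exact h8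
      · exact absurd h8 (by positivity)
    refine ⟨(2 ^ s : ℕ) • R, _, h6, ?_⟩
    rw [smul_smul, ← pow_succ']
    abel

end Pool.Agent.Q211.PQ
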